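import Pool.Agent.D0H79.GN.Coh
import Pool.Agent.D0H79.GN.Main7
import Pool.Agent.D0H79.GN.Main9

/-!
# MP_305fdd_al, Q1: the first cohomology of the groups with the finite quotients of a lattice

Q1 asks whether a finitely generated residually finite group `Λ` with the same finite quotients as a
lattice `Γ` of `PSL(2, ℝ)` or `PSL(2, ℂ)` is isomorphic to `Γ`.

All these lattices are finitely presented.  If `Γ` has `p` generators and `q` relators, then for
**every commutative local ring `R`** and every homomorphism from `Λ` to the `m × m` matrices over `R`
the cocycles of `Λ` with values in `R^m`, and in `S^m` for all commutative `R`-algebras `S`, are the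
solutions of `q m` linear equations in `p m` unknowns, as if `Λ` had `p` generators and `q` relators
(`Λ` is not assumed to be finitely presented).

If `Γ` is the free group of rank `n`, then for **every commutative ring `R`** and every homomorphism
`ρ : Λ → GL_m(R)` the module `Z¹(Λ, R^m)` of the cocycles is finitely generated projective of rank
`n m`, its formation commutes with every extension of the ring, and cocycles lift along every
surjection `R^m → R^l` of representations, as for the free group, where `Z¹ = (R^m)^n`.

For the free and the surface groups the theorem computes the first cohomology of `Λ` with
coefficients in every finite dimensional representation over every field (of any characteristic,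
countable or not): it is given by the formula for `Γ` (Euler characteristic and Poincaré duality),
although the representations of `Λ` over infinite fields do not factor through the profinite
completion.  For arbitrary finitely generated groups `Λ`, `Γ` with the same finite quotients the
dimensions of `H¹(Λ, V)`, `V^Λ`, `(V*)^Λ` are those of a representation of `Γ` of the same dimension
over a finite field, of the same characteristic if the characteristic is positive, and of
characteristic prime to a given number otherwise.

Proof idea.  Over a ring, the dual `D(ρ)` of the module of the cocycles is a finitely generated
module whose formation commutes with every extension of the ring, so it is enough to treat the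
universal representation over the local rings at the closed points of its (noetherian) ring.  Over the
finite quotients of these local rings `D(ρ)` depends on the profinite completion only, so it has the
presentation given by the Fox calculus for `Γ`; the lemmas of Artin-Rees and Schanuel bound the number
of the relations over the local ring itself.  For free groups the universal ring is smooth over `ℤ`.
Over a field the cocycles are the solutions of an infinite system of linear equations over a finitely
generated subring; finitely many minors decide its rank, and the ring has a finite residue field in
which they do not vanish.
-/

set_option autoImplicit false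

namespace Pool.Agent.Results.MP_305fdd_al.FirstCohomology

open Pool.Agent.D0H79.GN

universe u w

/-- Let `Λ` be a finitely generated group.
(1) Let `Λ` have the same finite quotients as the finitely generated group `Γ`.  If `Γ` has a
presentation with `p` generators and `q` relators, then for every commutative local ring `R` and every
representation of `Λ` on `R^m` the cocycles with values in `S^m`, for all commutative `R`-algebras
`S`, are the solutions of `q m` linear equations over `R` in `p m` unknowns.  Moreover, for every finite
dimensional representation `V` of `Λ` over a field `k` and every `M` which is not zero in `k` there
are a finite field `F`, in which `M` is not zero and in which all `N` with `N = 0` in `k` are zero,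
and a representation `W` of `Γ` over `F` of the same dimension as `V` such that `H¹(Λ, V)`, `V^Λ`,
`(V*)^Λ` have the same dimensions as `H¹(Γ, W)`, `W^Γ`, `(W*)^Γ`.
(2) If `Λ` has the same finite quotients as the free group of rank `n`, then for every commutative ring
`R` and every representation of `Λ` on `R^m` the module `Z¹(Λ, R^m)` of the cocycles is finitely
generated and projective of rank `n m`, and `S ⊗ Z¹(Λ, R^m) = Z¹(Λ, S^m)` for every commutative
`R`-algebra `S`; moreover `Z¹(Λ, R^m) → Z¹(Λ, R^l)` is surjective for every surjective homomorphism
`R^m → R^l` of representations; and `dim H¹(Λ, V) = (n - 1) dim V + dim V^Λ` for every finite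
dimensional representation `V` of `Λ` over every field.
(3) If `Λ` has the same finite quotients as the fundamental group of the closed orientable surface of
genus `g`, then `dim H¹(Λ, V) = (2 g - 2) dim V + dim V^Λ + dim (V*)^Λ` for every finite dimensional
representation `V` of `Λ` over every field. -/
theorem result (Λ : Type) [Group Λ] [Group.FG Λ] :
    (∀ (Γ : Type) [Group Γ] [Group.FG Γ], SameQuot Λ Γ →
      (∀ p q : ℕ, HasPresentation Γ p q → LocalEquations.{u} Λ p q) ∧
      RealizedOverFiniteFields.{u, w} Λ Γ) ∧
    (∀ n : ℕ, SameQuot Λ (FreeGroup (Fin n)) →
      CocyclesProjective.{u} Λ n ∧ CocyclesLift.{u} Λ ∧ FreeFormula.{u, w} Λ n) ∧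
    (∀ g : ℕ, SameQuot Λ (SurfaceGroup g) → SurfaceFormula.{u, w} Λ g) :=
  ⟨fun _ _ _ h => ⟨fun _ _ hp => main9 h hp, fun _ _ _ _ _ _ ρ M hM => coh_transfer h ρ M hM⟩,
    fun _ h => ⟨(main7 h).1, (main7 h).2, fun _ _ _ _ _ _ ρ => coh_free h ρ⟩,
    fun _ h _ _ _ _ _ _ ρ => coh_surf h ρ⟩

end Pool.Agent.Results.MP_305fdd_al.FirstCohomology
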