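import Pool.Agent.D0H79.GN.Fin4
import Pool.Agent.D0H79.GN.DefFree
import Pool.Agent.D0H70.GN.Adl

/-!
# MP_305fdd_al, Q1: the representations of the groups with the finite quotients of a free group

Q1 contains the question whether the free group of rank `n` is profinitely rigid: let `Λ` be a
finitely generated (residually finite) group with the same finite quotients as the free group of rank
`n`; is it free?  The theorem shows that the representations of `Λ` over arbitrary commutative rings
behave like those of the free group.

* Every representation over `A ⧸ I`, `I` nilpotent or `A` complete for the `I`-adic topology (so every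
  representation over a perfect field of characteristic `p` lifts to the Witt vectors, to characteristic
  zero), lifts to `A`.
* For every `m` the variety of the representations of degree `m` over an algebraically closed field of
  characteristic zero is irreducible and reduced, of dimension `n m²`, like the variety `GL_m ^ n` of the
  representations of the free group.
* For every `m` there is **one** representation `ρ : Λ → GL_m(ℂ)` whose kernel is contained in the kernels
  of all the representations of degree `m` over all commutative rings; so `Λ` is linear of degree `m` over
  some commutative ring if and only if it is linear of degree `m` over `ℂ`.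
* The same for the homomorphisms to any linear algebraic group `G` in place of `GL_m` for which
  `Hom(F_n, G) = G ^ n` is smooth over `ℤ[1/N]` and integral over `K`.

Proof idea.  Smoothness: the obstruction to lifting is a system of linear equations over a finitely
generated ring, solvable modulo every ideal of finite index.  The numbers of the irreducible components of
every dimension are those of `G ^ n` (`RepresentationVarieties`), and a smooth scheme over a field is
reduced, so `Hom(Λ, G)` is integral.  A smooth scheme over `ℤ` is flat, so the coordinate ring of
`Hom(Λ, GL_m)` over `ℤ` embeds in that over `ℂ`, an integral domain, and this in `ℂ`.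
-/

set_option autoImplicit false

namespace Pool.Agent.Results.MP_305fdd_al.FreeGroupVarieties

open Pool.Agent.D0H79.GN

universe u

/-- Let the finitely generated group `Λ` have the same finite quotients as the free group of rank `n`.
(1) For every commutative ring `A` and every ideal `I` of `A` which is nilpotent, or for which `A` is
complete and separated in the `I`-adic topology, every homomorphism `Λ → GL_m(A ⧸ I)` lifts to `A`.
(2) For every `m` there is a homomorphism `ρ : Λ → GL_m(ℂ)` whose kernel is contained in the kernel of
every homomorphism `Λ → GL_m(A)`, for every commutative ring `A`.
(3) For every `m` and every algebraically closed field `K` of characteristic zero the coordinate ring of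
the scheme of the homomorphisms from `Λ` to `GL_m` over `K` is an integral domain of transcendence
degree `n m²`.
(4) Let `E` be a system of equations for `m × m` matrices such that the scheme `Hom(F_n, G)` of the
homomorphisms from the free group of rank `n` to the invertible matrices satisfying `E` is smooth over
`ℤ[1/N]` and integral over `K`.  Then so is the scheme `Hom(Λ, G)`, of the same dimension over `K`. -/
theorem result (Λ : Type) [Group Λ] [Group.FG Λ] (n : ℕ) (h : SameQuot Λ (FreeGroup (Fin n))) :
    (∀ (A : Type u) [CommRing A] (I : Ideal A), (IsNilpotent I ∨ IsAdicComplete I A) →
      Lifts Λ A I) ∧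
    (∀ m : ℕ, ∃ ρ : Λ →* Matrix (Fin m) (Fin m) ℂ, ∀ (A : Type u) [CommRing A]
      (σ : Λ →* Matrix (Fin m) (Fin m) A) (g : Λ), ρ g = 1 → σ g = 1) ∧
    (∀ (m : ℕ) (K : Type) [Field K] [CharZero K] [IsAlgClosed K],
      IsDomain (RepRing Λ m ∅ K) ∧
      Algebra.trdeg K (RepRing Λ m ∅ K) = ((n * m ^ 2 : ℕ) : Cardinal)) ∧
    ∀ (m : ℕ) (E : Set (MvPolynomial (Fin m × Fin m) ℤ)) (N : ℕ) (K : Type) [Field K] [CharZero K]
      [IsAlgClosed K], N ≠ 0 →
      Algebra.Smooth (ZN N) (RepRing (FreeGroup (Fin n)) m E (ZN N)) →
      IsDomain (RepRing (FreeGroup (Fin n)) m E K) →
      Algebra.Smooth (ZN N) (RepRing Λ m E (ZN N)) ∧ IsDomain (RepRing Λ m E K) ∧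
      Algebra.trdeg K (RepRing Λ m E K) = Algebra.trdeg K (RepRing (FreeGroup (Fin n)) m E K) := by
  refine ⟨?_, fun m => free_universal h m, fun m K _ _ _ => main3 h m K, ?_⟩
  · intro A _ I hI m ρ
    rcases hI with hI | hI
    · exact main_lift h hI ρ
    · exact Pool.Agent.D0H70.GN.t_ADL Λ m (fun A _ I hI ρ => main_lift h hI ρ) A I ρ
  · intro m E N K _ _ _ hN hs hd
    exact main4_integral h m E hN hs K hd

end Pool.Agent.Results.MP_305fdd_al.FreeGroupVarieties
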