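import Pool.Agent.D0H79.GN.Fin4

/-!
# MP_305fdd_al, Q1: the schemes of representations over `ℤ` have the same local structure

Q1 asks whether a finitely generated residually finite group `Λ` with the same finite quotients as a
lattice `Γ` of `PSL(2, ℝ)` or `PSL(2, ℂ)` is isomorphic to `Γ`.  The theorem compares the schemes of
representations of `Λ` and `Γ` in any linear algebraic group `G` **over `ℤ`**, for arbitrary finitely
generated groups with the same finite quotients: the closed points correspond to each other, with
isomorphic completed local rings, the schemes have the same Krull dimension, and one is smooth over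
`ℤ[1/N]` if and only if the other is.  In the smooth case finitely many representations `Λ → G(ℂ)`, as
many as `Hom(Γ, G)` has components over `ℂ`, control all the representations of `Λ` over all commutative
rings in which `N` is invertible: an element in the kernel of all of them is in the kernel of every
homomorphism `Λ → G(A)`.  This applies to the free products `Γ` of finitely many cyclic groups, as are all
the non-cocompact lattices of `PSL(2, ℝ)` (for example `PSL(2, ℤ)` and the free groups): then
`Hom(Λ, GL_m)` is smooth over `ℤ[1/N]` for every `m`, `N` being the product of the orders of the finite
factors, and `Λ` is linear over some commutative ring in which `N` is invertible if and only if it is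
linear over `ℂ`.

Proof idea.  The homomorphisms of `Λ` and `Γ` to finite groups correspond naturally to each other, so the
points of the schemes over finite rings do; the finite quotients of a finitely generated ring determine
the completed local rings at the closed points.  The lifting of a point through a square-zero ideal of a
finitely generated ring is a system of linear equations, and a system of linear equations over a finitely
generated ring is solvable if it is solvable modulo all ideals of finite index (Artin-Rees and the
Nullstellensatz over `ℤ`).  A smooth scheme over `ℤ[1/N]` is flat and its fibre over `ℂ` is reduced, so the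
coordinate ring embeds in a product of copies of `ℂ`, one for each component of `Hom(Λ, G)` over `ℂ`; their
number is the same for `Γ` (`RepresentationVarieties`).
-/

set_option autoImplicit false

namespace Pool.Agent.Results.MP_305fdd_al.LocalStructure

open Pool.Agent.D0H79.GN

universe u

/-- Let `Λ` be a finitely generated group.
(1) Let the finitely generated group `Γ` have the same finite quotients as `Λ`, and let `E` be a set of
polynomial equations with integral coefficients for `m × m` matrices.  Then the closed points of the
schemes over `ℤ` of the homomorphisms from `Λ` and from `Γ` to the invertible matrices satisfying `E`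
correspond to each other, with isomorphic completed local rings, and local rings of the same dimension;
the schemes have the same Krull dimension; and for every `N` one of them is smooth over `ℤ[1/N]` if and
only if the other is.  If they are, and `N ≠ 0`, there are as many homomorphisms `ρ i` from `Λ` to the
complex matrices satisfying `E` as the scheme for `Γ` has irreducible components over `ℂ`, such that every
element of the kernels of all `ρ i` is in the kernel of every homomorphism from `Λ` to the matrices
satisfying `E` over every commutative ring in which `N` is invertible.
(2) If `Γ` is the free product of the cyclic groups of orders `μ 0, …, μ (k - 1)` (infinite if `μ i = 0`),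
and all the finite orders divide `N`, then the scheme of the homomorphisms from `Λ` to `GL_m` is smooth
over `ℤ[1/N]` for every `m`, if `Λ` has the same finite quotients as `Γ`. -/
theorem result (Λ : Type) [Group Λ] [Group.FG Λ] :
    (∀ (Γ : Type) [Group Γ] [Group.FG Γ], SameQuot Λ Γ →
      ∀ (m : ℕ) (E : Set (MvPolynomial (Fin m × Fin m) ℤ)),
        SameClosedPoints (RepRing Λ m E ℤ) (RepRing Γ m E ℤ) ∧
        ringKrullDim (RepRing Λ m E ℤ) = ringKrullDim (RepRing Γ m E ℤ) ∧
        ∀ N : ℕ, (Algebra.Smooth (ZN N) (RepRing Λ m E (ZN N)) ↔
          Algebra.Smooth (ZN N) (RepRing Γ m E (ZN N))) ∧
          (N ≠ 0 → Algebra.Smooth (ZN N) (RepRing Γ m E (ZN N)) →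
            ∃ ρ : Fin ((⊥ : Ideal (RepRing Γ m E ℂ)).minimalPrimes.ncard) →
              (Λ →* Matrix (Fin m) (Fin m) ℂ), UniversalFamily.{u} Λ m E N ρ)) ∧
    (∀ (k : ℕ) (μ : Fin k → ℕ), SameQuot Λ (CyclicProduct μ) →
      ∀ m N : ℕ, (∀ i, μ i ≠ 0 → μ i ∣ N) → Algebra.Smooth (ZN N) (RepRing Λ m ∅ (ZN N))) :=
  ⟨fun _ _ _ h m E => ⟨(closed_points h m E).1, (closed_points h m E).2,
      fun N => ⟨smooth_iff h m E N, fun hN hs => universal_family h m E hN hs rfl⟩⟩,
    fun _ _ h m N hN => cyc_smooth h m N hN⟩

end Pool.Agent.Results.MP_305fdd_al.LocalStructure
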