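import Pool.Agent.D0H79.GN.Main6

/-!
# MP_305fdd_al, Q1: the varieties of representations are determined by the finite quotients

Q1 asks whether a finitely generated residually finite group `Λ` with the same finite quotients as a
lattice `Γ` of `PSL(2, ℝ)` or `PSL(2, ℂ)` is isomorphic to `Γ`.  The varieties of representations
`Hom(Γ, G)`, `G` an algebraic group, above all the components of `Hom(Γ, SL₂)` which contain
irreducible representations, their dimensions and their fields of definition, are the main source of
invariants of the lattices.  The theorem says that for **every** linear algebraic group `G` defined over
`ℤ`, in every dimension `m`, and for **every field `K` of characteristic zero** the varieties `Hom(Λ, G)`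
and `Hom(Γ, G)` have the same number of `K`-irreducible components **of every dimension `d`**, and the same
number of those which contain an absolutely irreducible representation.  For `K = ℂ` these are the
geometric components, for number fields `K` the orbits of the Galois group of `K` on them, so that the
fields of definition are also compared.  It holds for all pairs of finitely generated groups with the same
finite quotients.

Proof idea.  The homomorphisms of `Λ` and `Γ` to finite groups correspond naturally, so the points of the
two schemes over finite fields do, and corresponding points have isomorphic completed local rings (the
finite quotients of a finitely generated ring determine them), so local rings (over `ℤ`) of the same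
dimension.  For an integral domain `B`, finitely generated over `ℤ`, of transcendence degree `n`, all the
local rings at the closed points away from finitely many characteristics have dimension `n + 1`, and the
number of the homomorphisms to the field with `q` elements is `h q ^ n + O(q ^ (n - 1/2))` (Lang-Weil),
`h` the number of homomorphisms of the ring of integers of the algebraic closure `L` of `ℚ` in the fraction
field of `B`.  The components over `K` are defined over a finitely generated ring `A ⊆ K`, the same ring for
`Λ` and `Γ`; the points of the components of dimension `d` over `A` are, up to few exceptions, the pairs of a
point of `A` and a point with local ring of dimension `d + 1`.  So the sums, over the components of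
dimension `d`, of the numbers of homomorphisms from the rings of integers of the fields `L` to the field
with `p` elements agree for `Λ` and `Γ`, for all large `p`, and by the prime ideal theorem their average
over `p` is the number of components.
-/

set_option autoImplicit false

namespace Pool.Agent.Results.MP_305fdd_al.RepresentationVarieties

open Pool.Agent.D0H79.GN

/-- Let `Λ` and `Γ` be finitely generated groups with the same finite quotients, `m` a natural number,
`E` a set of polynomials with integral coefficients in the entries of an `m × m` matrix (for example the
equations of a linear algebraic group), and `K` a field of characteristic zero.
Then for every `d` the scheme over `K` of the homomorphisms from `Λ` to the invertible matrices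
satisfying `E` and the corresponding scheme for `Γ` have
(1) the same number of irreducible components of dimension `d`;
(2) the same number of irreducible components of dimension `d` which contain an absolutely irreducible
representation;
(3) for every system `Q` of polynomial identities with integral coefficients for matrices, the same
number of irreducible components of dimension `d` whose representations do not all satisfy `Q`. -/
theorem result (Λ Γ : Type) [Group Λ] [Group Γ] [Group.FG Λ] [Group.FG Γ] (h : SameQuot Λ Γ)
    (m : ℕ) (E : Set (MvPolynomial (Fin m × Fin m) ℤ))
    (K : Type) [Field K] [CharZero K] (d : ℕ) :
    numComp Λ m E K (fun _ => True) d = numComp Γ m E K (fun _ => True) d ∧
    numComp Λ m E K HasAbsIrreducible d = numComp Γ m E K HasAbsIrreducible d ∧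
    ∀ (τ : Type) (Q : Set (MvPolynomial (τ × Fin m × Fin m) ℤ)),
      numComp Λ m E K (FailsOver Q) d = numComp Γ m E K (FailsOver Q) d :=
  main6 h m E K d

end Pool.Agent.Results.MP_305fdd_al.RepresentationVarieties
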